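import Pool.Agent.H382R3.FG.Circ

set_option autoImplicit false

namespace Pool.Agent.Results.MP_3ad462_an.DenseInvertibles

open scoped ENNReal
open H382FP

/-- For every `p ∈ [1, ∞)` and every irrational `θ` the invertible elements of
`F^p_r(ℤ, S^1, h)`, `h(z) = exp(2πiθ) z`, are dense.  More generally the invertible elements of
`F^p_r(ℤ, X, h)` are dense for every `p ∈ [1, ∞)`, every infinite compact Hausdorff space `X` and
every homeomorphism `h` of `X` all of whose orbits are dense. -/
theorem result :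
    (∀ (p : ℝ≥0∞) [Fact (1 ≤ p)] [Fact (p ≠ ∞)] (θ : ℝ), Irrational θ →
      Dense {a : FpR p Circle (Homeomorph.mulLeft (Circle.exp (2 * Real.pi * θ))) | IsUnit a}) ∧
    (∀ (p : ℝ≥0∞) [Fact (1 ≤ p)] [Fact (p ≠ ∞)] (X : Type) [TopologicalSpace X] [CompactSpace X]
      [T2Space X] [Infinite X] (h : X ≃ₜ X),
      (∀ x : X, Dense (Set.range fun n : ℤ => (h ^ n) x)) →
        Dense {a : FpR p X h | IsUnit a}) :=
  ⟨fun _ _ _ _ hθ => dense_units_c (fun z => dense_rotation hθ z),
    fun _ _ _ _ _ _ _ _ _ hmin => dense_units_c hmin⟩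

end Pool.Agent.Results.MP_3ad462_an.DenseInvertibles
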